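import Pool.Agent.Y741.MTop

/-!
MP_6f117a_ag, Q1: the notions of hyperbolicity are equivalent for all generic complete intersections
of dimension at least five, and their pseudo versions in the range `3 n + 3 ≤ 2 ∑ d_a + |A|`.

Let `k` be an algebraically closed field of characteristic `0` and `k0` a subfield. Let `H_a`, for
`a` in a finite set `A`, be forms of degrees `d_a > 0` in `n + 1` variables over `k` whose
coefficients are, for all `a` together, algebraically independent over `k0` (for the complex numbers
and `k0` countable, this holds outside of countably many proper closed subsets of the space of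
coefficients). Let `X` be the closed subset `H_a = 0` (for all `a`) of projective space of dimension
`n`, which is a smooth complete intersection of dimension `n - |A|`, irreducible for `|A| < n`.

(I) Suppose that `dim X ≥ 5`, or `3 n + 3 ≤ 2 ∑ d_a + |A|`, or `∑ (d_a + 1) ≤ 2 n - 2`. Then the
following are equivalent:
(1) `X` is algebraically hyperbolic: for some `α`, `deg f ≤ 2 α g` for all morphisms `f` from smooth
    projective curves to `X`, where `g` is the genus of the curve;
(2) for each curve, the degrees of the morphisms from this curve to `X` are bounded;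
(3) all morphisms from the multiplicative group to `X` are constant;
(4) all closed subvarieties of `X` of positive dimension are of general type;
(5) `X` contains no line;
(6) `2 n - 1 ≤ ∑ (d_a + 1)`.
In general, algebraically hyperbolic implies bounded, bounded implies groupless and (2), and
groupless implies (3). Hence `X` is algebraically hyperbolic, or bounded, or groupless, or
hyperbolic, if and only if it is all of these.

(II) Suppose that `3 n + 3 ≤ 2 ∑ d_a + |A|`. Then, with a constant `B` that depends only on `n` and
the degrees: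
(a) for every morphism `f` from a smooth projective curve of genus `g` to `X` whose image is not
    contained in the union of the lines in `X`, `deg f ≤ B max (2 g - 2, 0)`;
(b) every closed subvariety of `X` of positive dimension is of general type, or its generic point
    lies on a line in `X`;
(c) a form `G` vanishes on all lines in `X` if and only if all closed subvarieties of `X` of positive
    dimension that are not contained in `G = 0` are of general type.

A morphism from a curve to `X` is given by a point `x` of `X` over the function field `L` of the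
curve; `pht k x` is its degree (the degree of the pullback of `O(1)`), and `canDeg k L = 2 g - 2`. A
closed subvariety of `X` of dimension `w` is given by its generic point `y`, in homogeneous
coordinates, over its function field `K` or a finite extension of it; it is of general type if
`GeneralType k K w` (pluricanonical forms, regular at all prime divisors over it, whose ratios
contain `w` algebraically independent functions).
-/

set_option autoImplicit false

namespace Pool.Agent.Results.MP_6f117a_ag.GenericCompleteInters

open MvPolynomial FF Pool.Agent.W603.PV Pool.Agent.W603.LV Pool.Agent.W602.GT Pool.Agent.TH145.MG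

/-- Forms of degrees `d a` whose coefficients are algebraically independent over `k0`. -/
def Generic {k A : Type} (k0 : Type) [Field k0] [Field k] [Algebra k0 k] {n : ℕ}
    (H : A → MvPolynomial (Fin (n + 1)) k) (d : A → ℕ) : Prop :=
  (∀ a, (H a).IsHomogeneous (d a)) ∧
    AlgebraicIndependent k0 fun p : (a : A) × {I : Fin (n + 1) →₀ ℕ // I.degree = d a} =>
      (H p.1).coeff p.2.1

/-- The forms over a larger field. -/
noncomputable def ext {k A : Type} [Field k] {n : ℕ} (H : A → MvPolynomial (Fin (n + 1)) k)
    (Ω : Type) [Field Ω] [Algebra k Ω] (a : A) : MvPolynomial (Fin (n + 1)) Ω :=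
  map (algebraMap k Ω) (H a)

/-- The point `x` of projective space is on `X`. -/
def OnX {k K A : Type} [Field k] [Field K] [Algebra k K] {n : ℕ}
    (H : A → MvPolynomial (Fin (n + 1)) k) (x : Fin (n + 1) → K) : Prop :=
  x ≠ 0 ∧ ∀ a, aeval x (H a) = 0

/-- A line, given by a vector space `W` of dimension two, that is contained in `X`. -/
def Line {k A : Type} [Field k] {n : ℕ} (H : A → MvPolynomial (Fin (n + 1)) k)
    (W : Submodule k (Fin (n + 1) → k)) : Prop :=
  Module.finrank k W = 2 ∧ ∀ a, ∀ v ∈ W, eval v (H a) = 0

/-- The degrees of the morphisms from curves to `X` are at most a constant times the genus. -/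
def AlgebraicallyHyperbolic {k A : Type} [Field k] {n : ℕ}
    (H : A → MvPolynomial (Fin (n + 1)) k) : Prop :=
  ∃ α : ℕ, ∀ (L : Type) [Field L] [Algebra k L] [IsFF k L] (x : Fin (n + 1) → L), OnX H x →
    pht k x ≤ α * (canDeg k L + 2)

/-- For each curve, the degrees of the morphisms from this curve to `X` are bounded. -/
def BoundedOnCurves {k A : Type} [Field k] {n : ℕ}
    (H : A → MvPolynomial (Fin (n + 1)) k) : Prop :=
  ∀ (L : Type) [Field L] [Algebra k L] [IsFF k L], ∃ B : ℤ, ∀ x : Fin (n + 1) → L, OnX H x →
    pht k x ≤ B

/-- The polynomials `P` define a nonconstant morphism from the multiplicative group to `X`. -/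
def GmMap {k A : Type} [Field k] {n : ℕ} (H : A → MvPolynomial (Fin (n + 1)) k)
    (P : Fin (n + 1) → Polynomial k) : Prop :=
  (∀ t, t ≠ 0 → (∃ j, (P j).eval t ≠ 0) ∧ ∀ a, eval (fun j => (P j).eval t) (H a) = 0) ∧
  ∃ s t, s ≠ 0 ∧ t ≠ 0 ∧ ∃ i j, (P i).eval s * (P j).eval t ≠ (P j).eval s * (P i).eval t

/-- `K` is (a finite extension of) the function field, and `y` the generic point, of a closed
subvariety of dimension `w` of `X`. -/
def Subvariety {k A K : Type} [Field k] [Field K] [Algebra k K] {n : ℕ}
    (H : A → MvPolynomial (Fin (n + 1)) k) (w : ℕ) (y : Fin (n + 1) → K) : Prop :=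
  OnX H y ∧ Algebra.trdeg k K = w ∧ Algebra.IsAlgebraic (coords k y) K

/-- All closed subvarieties of positive dimension of `X` that are not contained in `G = 0` are of
general type. -/
def GeneralTypeOutside {k A : Type} [Field k] {n : ℕ} (H : A → MvPolynomial (Fin (n + 1)) k)
    (G : MvPolynomial (Fin (n + 1)) k) : Prop :=
  ∀ (K : Type) [Field K] [Algebra k K] (w : ℕ) (y : Fin (n + 1) → K), 0 < w →
    Subvariety H w y → aeval y G ≠ 0 → GeneralType k K w

/-- All closed subvarieties of positive dimension of `X` are of general type. -/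
def Hyperbolic {k A : Type} [Field k] {n : ℕ} (H : A → MvPolynomial (Fin (n + 1)) k) : Prop :=
  ∀ (K : Type) [Field K] [Algebra k K] (w : ℕ) (y : Fin (n + 1) → K), 0 < w →
    Subvariety H w y → GeneralType k K w

theorem result {n : ℕ} (hn : 1 ≤ n) {A : Type} [Fintype A] [DecidableEq A] {d : A → ℕ}
    (hd0 : ∀ a, 0 < d a) :
    ∃ B : ℕ, ∀ (k0 k : Type) [Field k0] [Field k] [Algebra k0 k] [IsAlgClosed k] [CharZero k]
      (H : A → MvPolynomial (Fin (n + 1)) k), Generic k0 H d →
      -- (I) the equivalences
      (Fintype.card A + 5 ≤ n ∨ 3 * n + 3 ≤ 2 * ∑ a, d a + Fintype.card A ∨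
          ∑ a, (d a + 1) ≤ 2 * n - 2 →
        List.TFAE [AlgebraicallyHyperbolic H, BoundedOnCurves H, ∀ P, ¬ GmMap H P, Hyperbolic H,
          ∀ W, ¬ Line H W, 2 * n - 1 ≤ ∑ a, (d a + 1)]) ∧
      -- (II) curves and subvarieties that are not in lines
      (3 * n + 3 ≤ 2 * ∑ a, d a + Fintype.card A →
        (∀ (L : Type) [Field L] [Algebra k L] [IsFF k L] (x : Fin (n + 1) → L), OnX H x →
          pht k x ≤ B * max (canDeg k L) 0 ∨ ∃ W, Line (ext H (AlgebraicClosure L)) W ∧
            (fun j => algebraMap L (AlgebraicClosure L) (x j)) ∈ W) ∧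
        (∀ (K : Type) [Field K] [Algebra k K] (w : ℕ) (y : Fin (n + 1) → K), 0 < w →
          Subvariety H w y → GeneralType k K w ∨
            ∀ (Ω : Type) [Field Ω] [Algebra k Ω] [IsAlgClosed Ω] (ψ : K →ₐ[k] Ω),
              ∃ W, Line (ext H Ω) W ∧ (fun j => ψ (y j)) ∈ W) ∧
        ∀ (G : MvPolynomial (Fin (n + 1)) k) (e : ℕ), G.IsHomogeneous e →
          ((∀ W, Line H W → ∀ v ∈ W, eval v G = 0) ↔ GeneralTypeOutside H G)) := by
  obtain ⟨B, hB⟩ : ∃ B : ℕ, 3 * n + 3 ≤ 2 * ∑ a, d a + Fintype.card A →
      ∀ (k0 k L : Type) [Field k0] [Field k] [Field L] [Algebra k0 k]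
      [Algebra k L] [IsAlgClosed k] [CharZero k] [IsFF k L]
      (G : A → MvPolynomial (Fin (n + 1)) k), (∀ a, (G a).IsHomogeneous (d a)) →
      (AlgebraicIndependent k0 fun p : Pool.Agent.TH145.GC.Cf n d => (G p.1).coeff p.2.1) →
      ∀ (x : Fin (n + 1) → L), x ≠ 0 → (∀ a, aeval x (G a) = 0) →
      pht k x ≤ B * max (canDeg k L) 0 ∨
        Pool.Agent.Y741.Exc 2 (fun a => map (algebraMap k (AlgebraicClosure L)) (G a)) Finset.univ
          (fun j => algebraMap L (AlgebraicClosure L) (x j)) := by
    by_cases hd : 3 * n + 3 ≤ 2 * ∑ a, d a + Fintype.card A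
    · obtain ⟨B, hB⟩ := Pool.Agent.Y741.mf_deg n A d hn hd0 hd
      exact ⟨B, fun _ => hB⟩
    · exact ⟨0, fun h => absurd h hd⟩
  refine ⟨B, ?_⟩
  intro k0 k _ _ _ _ _ H hH
  obtain ⟨hG, hind⟩ := hH
  refine ⟨fun hdim => Pool.Agent.Y741.m_tfae (k0 := k0) hn hd0 hG hind (by tauto), fun hd =>
    ⟨?_, ?_, fun G e hGe => Pool.Agent.Y741.m_forms (k0 := k0) hn hd0 hG hind hd hGe⟩⟩
  · intro L _ _ _ x hx
    have hL : CharZero L := charZero_of_injective_algebraMap (algebraMap k L).injective
    have hO : CharZero (AlgebraicClosure L) :=
      charZero_of_injective_algebraMap (algebraMap L (AlgebraicClosure L)).injective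
    exact (hB hd k0 k L H hG hind x hx.1 hx.2).imp id fun h =>
      Pool.Agent.Y741.mf_line (k := k) hG h
  · intro K _ _ w y hw hy
    by_cases hgt : GeneralType k K w
    · exact Or.inl hgt
    · right
      intro Ω _ _ _ ψ
      have hO : CharZero Ω := charZero_of_injective_algebraMap (algebraMap k Ω).injective
      exact Pool.Agent.Y741.mf_line (k := k) hG
        (Pool.Agent.Y741.mf_dich (k0 := k0) hn hd0 hG hind hd hw hy hgt Ω ψ)

end Pool.Agent.Results.MP_6f117a_ag.GenericCompleteInters
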