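import Pool.Agent.Y192.FN.All

/-!
MP_6f117a_ag, Q1: notions of hyperbolicity for the covers `w j ^ e j = F j (t 0 ^ m, …, t n ^ m)` of
arbitrary closed subsets of projective space, `m` large; logarithmic version.

`NMap X m S u v`: the vectors `u`, `v` of elements of a function field `M` of one variable are
homogeneous coordinates of a morphism from the smooth projective curve with function field `M`,
without the finite set `S` of points, to `X° m`. Its degree is `pht ℂ u`, and `canDeg ℂ M` is
`2 g - 2`. `NGm X m p s`: the polynomials `p`, `s` give a nonconstant morphism from the
multiplicative group to `X° m`.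
-/

set_option autoImplicit false

namespace Pool.Agent.Results.MP_6f117a_ag.KummerHyperbolic

open Pool.Agent.Y192.FN

/-- Let `Z` be any closed subset of `P^n`, given by a homogeneous ideal `J` (it may be reducible, lie
in coordinate hyperplanes, and so on), let `F 1, …, F r` and `G` be arbitrary forms, and let
`e 1, …, e r` be positive numbers. There are numbers `m0` and `A` with the following properties. Let
`m ≥ m0` be divisible by the `e j`, let `X m` be the projective variety with the equations
`f (t 0 ^ m, …, t n ^ m) = 0`, `f ∈ J`, and `w j ^ e j = F j (t 0 ^ m, …, t n ^ m)` in the weighted
projective space with the homogeneous coordinates `t i` and `w j`, and let `X° m` be its open subset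
`G (t 0 ^ m, …, t n ^ m) ≠ 0` (`X° m = X m` if `G = 1`).

(1) Let `C` be a smooth curve of genus `g` with `s` points at infinity, and `f : C → X° m` a morphism.
Then `m * deg f ≤ A * max (2 g - 2 + s) 0`, or `f (C)` lies in the special set, which is the Zariski
closure of the union of the images of the nonconstant morphisms from the multiplicative group to
`X° m`. (`m * deg f` is the degree of the map from `C` to `Z`.)

(2) The following are equivalent: `X° m` is algebraically hyperbolic (`deg f ≤ B * max (2 g - 2 + s) 0`
for all `C` and `f`); the degrees of all `f` are bounded by a function of `2 g - 2 + s`; the degrees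
of the `f` are bounded for each `C`; all holomorphic maps from the punctured disc to `X° m` extend
to the disc; all entire curves in `X° m` are constant; all morphisms from the multiplicative group
to `X° m` are constant.

(3) If `G = 1` then the last condition means that the projective variety `X m` contains no rational
curve. -/
theorem result {n r : ℕ} (X : NDat n r) :
    ∃ m0 A : ℕ, ∀ m, m0 ≤ m → (∀ j, X.e j ∣ m) →
      NSpU X A m ∧ [NAlg X m, NEul X m, NEach X m, NPic X m, NBro X m, NNoGm X m].TFAE ∧
      (X.G = 1 → (NNoGm X m ↔ NNoRat X m)) :=
  mainN_all X

end Pool.Agent.Results.MP_6f117a_ag.KummerHyperbolic
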