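import Pool.Agent.Y190.CI.Tf

/-!
MP_6f117a_ag, Q1: the algebraic notions of hyperbolicity for the closed subsets of the complete
intersections `w j ^ d j = H (a j 1) * ... * H (a j (d j))`, `j < c`, of linear degree in `P^(c+n)`.

`CompInt n a` is the (cone over the) complete intersection; the last `n + 1` coordinates are the
coefficients of the polynomial `H`. `Cone F` is the cone over the projective variety `V = {F = 0}`.
`AlgHyperbolic A F`: all maps from smooth projective curves of genus `g` to `V` have degree at most
`A * max (2 * g - 2) 0`. `BoundedOnCurves F`: the degrees of the maps from each curve to `V` are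
bounded. `AllGeneralType F`: all closed subvarieties of positive dimension of `V` are of general
type. `pht k y` is the degree of the map `y` from the curve with function field `K`, and
`canDeg k K = 2 g - 2`.
-/

set_option autoImplicit false

namespace Pool.Agent.Results.MP_6f117a_ag.LinearDegreeIntersections

open FF Pool.Agent.W602.GT Pool.Agent.Y190.CI Pool.Agent.W603.CX Pool.Agent.W603.PV
  Pool.Agent.W603.LV

/-- Let `n * (c + 2) < c * δ` and `3 * (n + 1) < δ + 3 * c`, let `d j ≥ δ` for `j < c`, and let the
`a j i` be distinct elements of the algebraically closed field `k` of characteristic zero (`Data`);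
for instance `c = n` and `δ = n + 3`, or `c = 1` and `δ = 3 * n + 1`. Let `V` be a closed subset of
the complete intersection `w j ^ d j = H (a j 1) * ... * H (a j (d j))`, `j < c`.

(1) If `n ≤ c + 1`, the following are equivalent: `V` is algebraically hyperbolic, with the constant
`n`; `V` is algebraically hyperbolic; the degrees of the maps from each curve to `V` are bounded;
all subvarieties of `V` are of general type; there are no nonconstant morphisms from the
multiplicative group to `V`; `V` contains no line.

(2) If `n ≤ c`, all this is true.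

(3) For all `n` and `c`, every map from a curve of genus `g` to `V` whose image is not contained in
`w = 0` has degree at most `n * max (2 * g - 2) 0`. -/
theorem result {k : Type} [Field k] [IsAlgClosed k] [CharZero k] {n c δ : ℕ} {d : Fin c → ℕ}
    {a : (j : Fin c) → Fin (d j) → k} (h : Data n c δ d a) {ι : Type}
    {F : ι → MvPolynomial (Fin (c + n + 1)) k} (hF : ∀ e, IsForm (F e))
    (hV : Cone F ⊆ CompInt n a) :
    (n ≤ c + 1 → [AlgHyperbolic n F, ∃ A : ℕ, AlgHyperbolic A F, BoundedOnCurves F,
      AllGeneralType F, ∀ P, ¬ GmCurve F P, ¬ ContainsLine F].TFAE) ∧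
    (n ≤ c → AlgHyperbolic n F ∧ AllGeneralType F) ∧
    ∀ (K : Type) [Field K] [Algebra k K] [IsFF k K] (y : Fin (c + n + 1) → K), y ≠ 0 →
      (∀ e, val y (F e) = 0) → (∃ j : Fin c, y (Fin.castAdd (n + 1) j) ≠ 0) →
      pht k y ≤ n * max (canDeg k K) 0 := by
  refine ⟨fun hnc => alg_six hnc h.num h.inj hF hV, fun hnc => ?_, ?_⟩
  · have h1 := alg_six (by omega) h.num h.inj hF hV
    have h2 : ∀ p q, ¬ Line F p q := spLine_empty_iff.1 (spLine_empty_ci hnc h.num h.inj hF hV)
    have h3 : AllGeneralType F := ((alg_tfae (by omega) h.num h.inj hF hV).out 0 2).2 h2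
    exact ⟨(h1.out 0 3).2 h3, h3⟩
  · rintro K _ _ _ y hy0 hy ⟨j, hj⟩
    exact curve_ci h.num h.inj (fun _ => one_ne_zero) hy0 (onCI_of hV hy0 hy)
      (Function.ne_iff.2 ⟨j, hj⟩)

end Pool.Agent.Results.MP_6f117a_ag.LinearDegreeIntersections
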